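import Pool.Agent.H25.EH.Pol

/-!
# The two displacement polynomials of a hop: back

`nh_back : NhBack D`.
-/

set_option autoImplicit false

namespace Pool.EH25

open Finset Polynomial

/-- Division by a linear factor. -/
theorem Cb.div1 {f : Polynomial ℝ} {B x : ℝ} {N : ℕ} (hf : f.natDegree ≤ N) (hx : |x| ≤ 1)
    (h : Cb ((C x - X) * f) B) : Cb f ((N + 1) * B) := by
  have key : ∀ k j : ℕ, N + 1 ≤ j + k → |f.coeff j| ≤ k * B := by
    intro k
    induction k with
    | zero =>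
      intro j hj
      rw [coeff_eq_zero_of_natDegree_lt (by omega), abs_zero]
      simp
    | succ k ih =>
      intro j hj
      have h1 := ih (j + 1) (by omega)
      have h2 := h (j + 1)
      rw [sub_mul, coeff_sub, coeff_C_mul, coeff_X_mul] at h2
      have e1 : f.coeff j = x * f.coeff (j + 1) - (x * f.coeff (j + 1) - f.coeff j) := by ring
      rw [e1]
      refine (abs_sub _ _).trans ?_
      rw [abs_mul]
      have h3 : |x| * |f.coeff (j + 1)| ≤ |f.coeff (j + 1)| :=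
        mul_le_of_le_one_left (abs_nonneg _) hx
      push_cast
      linarith
  intro j
  have := key (N + 1) j (by omega)
  push_cast at this
  exact this

theorem deg_G (x : ℝ) : (C x - X : Polynomial ℝ).natDegree ≤ 1 := by
  refine (natDegree_sub_le _ _).trans (max_le ?_ natDegree_X_le)
  rw [natDegree_C]
  exact Nat.zero_le _

theorem Cb.divp {x : ℝ} {M : ℕ} (hx : |x| ≤ 1) : ∀ (k : ℕ) {f : Polynomial ℝ} {B : ℝ},
    f.natDegree + k ≤ M → Cb ((C x - X) ^ k * f) B → Cb f ((M + 1) ^ k * B)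
  | 0, f, B, _, h => by
    rw [pow_zero, one_mul] at h ⊢
    exact h
  | k + 1, f, B, hM, h => by
    have e1 : (C x - X) ^ (k + 1) * f = (C x - X) ^ k * ((C x - X) * f) := by
      rw [pow_succ, mul_assoc]
    rw [e1] at h
    have hd : ((C x - X) * f).natDegree + k ≤ M := by
      have := natDegree_mul_le (p := (C x - X : Polynomial ℝ)) (q := f)
      have := deg_G x
      omega
    have h1 := Cb.divp hx k hd h
    have h2 := h1.div1 (N := M) (by omega) hx
    rw [← mul_assoc, ← pow_succ'] at h2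
    exact h2

/-- The constant coefficient. -/
theorem cb_zero {F : Polynomial ℝ} {B x : ℝ} {N : ℕ} (hF : F.natDegree ≤ N) (hx : |x| ≤ 1)
    (h0 : F.eval x = 0) (hB : 0 ≤ B) (h : ∀ j, 1 ≤ j → |F.coeff j| ≤ B) :
    Cb F ((N + 1) * B) := by
  have hN : (0 : ℝ) ≤ N := Nat.cast_nonneg N
  intro j
  rcases Nat.eq_zero_or_pos j with rfl | hj
  · have h1 : Cb (F - C (F.coeff 0)) B := fun j => by
      rw [coeff_sub, coeff_C]
      rcases Nat.eq_zero_or_pos j with rfl | hj
      · rw [if_pos rfl, sub_self, abs_zero]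
        exact hB
      · rw [if_neg (by omega), sub_zero]
        exact h j hj
    have h2 := h1.ev (D := N) ((natDegree_sub_le _ _).trans (max_le hF (by
      rw [natDegree_C]
      exact Nat.zero_le _))) hx
    rw [eval_sub, h0, eval_C, zero_sub, abs_neg] at h2
    exact h2
  · refine (h j hj).trans ?_
    have : 0 ≤ N * B := mul_nonneg hN hB
    linarith

/-- The remainder of Taylor's formula. -/
noncomputable def Re (e k : ℕ) (x : ℝ) (mu : Polynomial ℝ) : Polynomial ℝ :=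
  ∑ m ∈ range k, hasseDeriv (e + m) mu * (C x - X) ^ m

theorem Re_eq {D e k : ℕ} (hk : D + 1 = e + k) {mu : Polynomial ℝ} (hmu : mu.natDegree ≤ D)
    (x : ℝ) : ∑ m ∈ range e, hasseDeriv m mu * (C x - X) ^ m + (C x - X) ^ e * Re e k x mu =
      C (mu.eval x) := by
  rw [← tay_x hmu x, hk, Finset.sum_range_add]
  congr 1
  unfold Re
  rw [Finset.mul_sum]
  refine Finset.sum_congr rfl fun m _ => ?_
  rw [pow_add]
  ring

theorem QP_eq {D e k i₀ : ℕ} (hk : D + 1 = e + k) {mu Mc : Polynomial ℝ}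
    (hmu : mu.natDegree ≤ D) (x Da DD : ℝ) : QP i₀ e x Da DD mu Mc =
      C (Da * (mu - Mc).eval x) * (C x - X) ^ i₀ +
        (C x - X) ^ (i₀ + e) * (C DD - C Da * Re e k x mu) := by
  unfold QP QN Qv
  have h1 := Re_eq hk hmu x
  have h2 : ∑ m ∈ range e, hasseDeriv m mu * (C x - X) ^ (i₀ + m) =
      (C x - X) ^ i₀ * (C (mu.eval x) - (C x - X) ^ e * Re e k x mu) := by
    rw [← h1, add_sub_cancel_right, Finset.mul_sum]
    refine Finset.sum_congr rfl fun m _ => ?_
    rw [pow_add]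
    ring
  rw [h2, eval_sub, mul_sub Da, C_sub, C_mul, C_mul, pow_add]
  ring

/-- The derivative of the remainder. -/
theorem Re_der {D e k : ℕ} (he : 1 ≤ e) (hk : D + 1 = e + k) {mu : Polynomial ℝ}
    (hmu : mu.natDegree ≤ D) (x Da DD : ℝ) {W : Polynomial ℝ}
    (hW : W = C DD - C Da * Re e k x mu) :
    C Da * hasseDeriv e mu - C DD = -W + C (1 / (e : ℝ)) * ((C x - X) * derivative W) := by
  have hG : derivative (C x - X : Polynomial ℝ) = -1 := by
    rw [derivative_sub, derivative_C, derivative_X, zero_sub]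
  have he0 : (e : ℝ) ≠ 0 := by
    have : (1 : ℝ) ≤ e := by exact_mod_cast he
    linarith
  obtain ⟨e', rfl⟩ : ∃ e', e = e' + 1 := ⟨e - 1, by omega⟩
  have h1 := congrArg derivative (Re_eq hk hmu x)
  rw [derivative_add, tel, derivative_C, derivative_mul, derivative_pow, hG,
    Nat.add_sub_cancel] at h1
  have hGne : (C x - X : Polynomial ℝ) ≠ 0 := by
    intro h
    have := congrArg (fun p => p.coeff 1) h
    simp at this
  have h2 : derivative W = -(C Da * derivative (Re (e' + 1) k x mu)) := by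
    rw [hW, derivative_sub, derivative_C, derivative_mul, derivative_C, zero_mul, zero_add,
      zero_sub]
  have h3 : (C x - X) ^ e' * (C ((e' + 1 : ℕ) : ℝ) * hasseDeriv (e' + 1) mu -
      C ((e' + 1 : ℕ) : ℝ) * Re (e' + 1) k x mu +
      (C x - X) * derivative (Re (e' + 1) k x mu)) = 0 := by
    rw [← h1, pow_succ]
    ring
  have h4 := (mul_eq_zero.1 h3).resolve_left (pow_ne_zero _ hGne)
  have h5 : C ((e' + 1 : ℕ) : ℝ) * hasseDeriv (e' + 1) mu =
      C ((e' + 1 : ℕ) : ℝ) * Re (e' + 1) k x mu -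
      (C x - X) * derivative (Re (e' + 1) k x mu) := by
    linear_combination h4
  have h6 : (C (1 / ((e' + 1 : ℕ) : ℝ)) * C ((e' + 1 : ℕ) : ℝ) : Polynomial ℝ) = 1 := by
    rw [← C_mul, one_div, inv_mul_cancel₀ he0, C_1]
  rw [h2, hW]
  linear_combination (C Da * C (1 / ((e' + 1 : ℕ) : ℝ))) * h5 -
    C Da * (hasseDeriv (e' + 1) mu - Re (e' + 1) k x mu) * h6

theorem deg_Re {D e k : ℕ} (hk : D + 1 = e + k) {mu : Polynomial ℝ} (hmu : mu.natDegree ≤ D)
    (x : ℝ) : (Re e k x mu).natDegree ≤ D := by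
  unfold Re
  refine natDegree_sum_le_of_forall_le _ _ fun m hm => ?_
  have h1 := Finset.mem_range.1 hm
  refine natDegree_mul_le.trans ?_
  have h2 := natDegree_hasseDeriv_le mu (e + m)
  have h3 : ((C x - X : Polynomial ℝ) ^ m).natDegree ≤ m := by
    refine natDegree_pow_le.trans ?_
    have := Nat.mul_le_mul_left m (deg_G x)
    omega
  omega

/-- The remainder is small. -/
theorem W_small {D e k i₀ : ℕ} {x E' Da DD : ℝ} {mu Mc W : Polynomial ℝ} (hiD : i₀ + e ≤ D)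
    (he : 1 ≤ e) (hk : D + 1 = e + k) (hmu : mu.natDegree ≤ D) (hMc : Mc.natDegree ≤ D)
    (hE' : 0 ≤ E') (hx : |x| ≤ 1) (hQ : ∀ j, 1 ≤ j → |(QP i₀ e x Da DD mu Mc).coeff j| ≤ E')
    (hM : ∀ j, |Da| * |(mu - Mc).coeff j| ≤ E') (hW : W = C DD - C Da * Re e k x mu) :
    W.natDegree ≤ D ∧
    Cb W ((2 * D + 1) ^ D * ((2 * D + 1) * ((1 + (D + 1) * 2 ^ D) * E'))) := by
  have hD0 : (0 : ℝ) ≤ D := Nat.cast_nonneg D
  have hWd : W.natDegree ≤ D := by
    rw [hW]
    refine (natDegree_sub_le _ _).trans (max_le ?_ ((natDegree_C_mul_le _ _).trans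
      (deg_Re hk hmu x)))
    rw [natDegree_C]
    exact Nat.zero_le _
  refine ⟨hWd, ?_⟩
  have hMd : (mu - Mc).natDegree ≤ D := (natDegree_sub_le _ _).trans (max_le hmu hMc)
  have ha : |Da * (mu - Mc).eval x| ≤ (D + 1) * E' := by
    have h1 : Cb (C Da * (mu - Mc)) E' := fun j => by
      rw [coeff_C_mul, abs_mul]
      exact hM j
    have h2 := h1.ev (D := D) ((natDegree_C_mul_le _ _).trans hMd) hx
    rwa [eval_mul, eval_C] at h2
  have h1 : Cb (1 : Polynomial ℝ) 1 := by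
    have := cb_C 1
    rw [C_1, abs_one] at this
    exact this
  have h2 : Cb (C (Da * (mu - Mc).eval x) * ((C x - X) ^ i₀ * 1)) ((D + 1) * E' * 2 ^ D) := by
    refine ((h1.linp hx i₀).cmul ha).mono ?_
    rw [mul_one]
    exact mul_le_mul_of_nonneg_left (pow_le_pow_right₀ (by norm_num) (by omega))
      (by positivity)
  obtain ⟨F, hF⟩ : ∃ F : Polynomial ℝ, F = (C x - X) ^ (i₀ + e) * W := ⟨_, rfl⟩
  have hFe : F = QP i₀ e x Da DD mu Mc - C (Da * (mu - Mc).eval x) * ((C x - X) ^ i₀ * 1) := by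
    rw [hF, QP_eq hk hmu, hW]
    ring
  have hFd : F.natDegree ≤ 2 * D := by
    rw [hF]
    refine natDegree_mul_le.trans ?_
    have h3 : ((C x - X : Polynomial ℝ) ^ (i₀ + e)).natDegree ≤ i₀ + e := by
      refine natDegree_pow_le.trans ?_
      have := Nat.mul_le_mul_left (i₀ + e) (deg_G x)
      omega
    omega
  have hF0 : F.eval x = 0 := by
    rw [hF, eval_mul, eval_pow, eval_sub, eval_C, eval_X, sub_self, zero_pow (by omega), zero_mul]
  have hFj : ∀ j, 1 ≤ j → |F.coeff j| ≤ (1 + (D + 1) * 2 ^ D) * E' := by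
    intro j hj
    rw [hFe, coeff_sub]
    refine (abs_sub _ _).trans ?_
    have h4 := hQ j hj
    have h5 := h2 j
    have h6 : (1 + (D + 1) * 2 ^ D) * E' = E' + (D + 1) * E' * 2 ^ D := by ring
    rw [h6]
    linarith
  have hFc := cb_zero hFd hx hF0 (by positivity) hFj
  rw [hF] at hFc
  have hc := Cb.divp (M := 2 * D) hx (i₀ + e) (f := W) (by omega) hFc
  push_cast at hc
  refine hc.mono (mul_le_mul_of_nonneg_right ?_ (by positivity))
  exact pow_le_pow_right₀ (by linarith) hiD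

/-- **The slopes.** -/
theorem sl_small {D e k i₀ : ℕ} {x E' Da DD : ℝ} {mu Mc : Polynomial ℝ} (hiD : i₀ + e ≤ D)
    (he : 1 ≤ e) (hk : D + 1 = e + k) (hmu : mu.natDegree ≤ D) (hMc : Mc.natDegree ≤ D)
    (hE' : 0 ≤ E') (hx : |x| ≤ 1) (hQ : ∀ j, 1 ≤ j → |(QP i₀ e x Da DD mu Mc).coeff j| ≤ E')
    (hM : ∀ j, |Da| * |(mu - Mc).coeff j| ≤ E') :
    Cb (C Da * hasseDeriv e mu - C DD)
      ((2 * D + 1) * ((2 * D + 1) ^ D * ((2 * D + 1) * ((1 + (D + 1) * 2 ^ D) * E')))) := by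
  have hD0 : (0 : ℝ) ≤ D := Nat.cast_nonneg D
  obtain ⟨W, hW⟩ : ∃ W : Polynomial ℝ, W = C DD - C Da * Re e k x mu := ⟨_, rfl⟩
  obtain ⟨hWd, hWc⟩ := W_small hiD he hk hmu hMc hE' hx hQ hM hW
  obtain ⟨B, hB⟩ : ∃ B : ℝ, B = (2 * D + 1) ^ D * ((2 * D + 1) * ((1 + (D + 1) * 2 ^ D) * E')) :=
    ⟨_, rfl⟩
  rw [← hB] at hWc ⊢
  have hB0 := hWc.nonneg
  rw [Re_der he hk hmu x Da DD hW]
  have h1 : Cb (derivative W) (D * B) := fun j => by
    rw [coeff_derivative, abs_mul]
    rcases Nat.lt_or_ge D (j + 1) with h2 | h2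
    · rw [coeff_eq_zero_of_natDegree_lt (lt_of_le_of_lt hWd h2), abs_zero, zero_mul]
      positivity
    · rw [mul_comm]
      refine mul_le_mul ?_ (hWc _) (abs_nonneg _) hD0
      rw [abs_of_nonneg (by positivity)]
      exact_mod_cast h2
  have he1 : |1 / (e : ℝ)| ≤ 1 := by
    have : (1 : ℝ) ≤ e := by exact_mod_cast he
    rw [abs_of_nonneg (by positivity), div_le_one (by linarith)]
    exact this
  refine (hWc.neg.add ((h1.lin hx).cmul he1)).mono (le_of_eq ?_)
  ring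

/-- **Back.** -/
theorem nh_back (D : ℕ) : NhBack D := by
  have hD0 : (0 : ℝ) ≤ D := Nat.cast_nonneg D
  obtain ⟨L, hL⟩ : ∃ L : ℝ, L = (D : ℝ) + 1 := ⟨_, rfl⟩
  obtain ⟨P, hP⟩ : ∃ P : ℝ, P = (2 : ℝ) ^ D := ⟨_, rfl⟩
  have hL1 : 1 ≤ L := by rw [hL]; linarith
  have hP1 : 1 ≤ P := by rw [hP]; exact one_le_pow₀ (by norm_num)
  obtain ⟨K₃, hK₃⟩ : ∃ K₃ : ℝ, K₃ = (2 * D + 1) * ((2 * D + 1) ^ D * ((2 * D + 1) *
    (1 + (D + 1) * 2 ^ D))) := ⟨_, rfl⟩
  obtain ⟨Kn, hKn⟩ : ∃ Kn : ℝ, Kn = ((D : ℝ) + 1) *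
    (((D + 2) * (2 * ((D + 1) * 2 ^ D) ^ 2)) * 2 ^ D) := ⟨_, rfl⟩
  obtain ⟨Kd, hKd⟩ : ∃ Kd : ℝ, Kd = ((D : ℝ) + 1) * (2 * ((D + 1) * 2 ^ D) * 2 ^ D) := ⟨_, rfl⟩
  have h3 : 0 ≤ K₃ := by rw [hK₃]; positivity
  have hn0 : 0 ≤ Kn := by rw [hKn]; positivity
  have hd0 : 0 ≤ Kd := by rw [hKd]; positivity
  refine ⟨Kn + L * Kd + (P + P * (L * (L * P * K₃ * P))) + 1, by
    have : 0 ≤ Kn + L * Kd + (P + P * (L * (L * P * K₃ * P))) := by positivity
    linarith, ?_⟩
  intro i₀ e x y E E' C₁ d n mu Mc Da DD hi he hd hn hmu hMc hC hm hMb hE hEE hx0 hx1 hy0 hy1 H hQ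
    hM j
  have hE' : 0 ≤ E' := hE.trans hEE
  have hxa : |x| ≤ 1 := by
    rw [abs_of_nonneg hx0]
    exact hx1
  have hya : |y| ≤ 1 := by
    rw [abs_of_nonneg hy0]
    exact hy1
  have hC0 : 0 ≤ C₁ := by linarith
  obtain ⟨k, hk⟩ : ∃ k, D + 1 = e + k := ⟨D + 1 - e, by omega⟩
  have hk1 : 1 ≤ k := by omega
  have hS := sl_small hi he hk hmu hMc hE' hxa hQ hM
  have hS3 : (2 * (D : ℝ) + 1) * ((2 * D + 1) ^ D * ((2 * D + 1) *
      ((1 + (D + 1) * 2 ^ D) * E'))) = K₃ * E' := by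
    rw [hK₃]
    ring
  rw [hS3] at hS
  have h3E : 0 ≤ K₃ * E' := mul_nonneg h3 hE'
  -- the slopes
  have hmj : ∀ j, e < j → |(C Da * mu).coeff j| ≤ K₃ * E' := by
    intro j hj
    have h1 := hS (j - e)
    rw [coeff_sub, coeff_C, if_neg (by omega), sub_zero, coeff_C_mul, hasseDeriv_coeff,
      Nat.sub_add_cancel hj.le] at h1
    rw [coeff_C_mul]
    refine le_trans ?_ h1
    have h2 : (1 : ℝ) ≤ (j.choose e : ℝ) := by
      exact_mod_cast Nat.choose_pos hj.le
    have e1 : Da * ((j.choose e : ℝ) * mu.coeff j) = (j.choose e : ℝ) * (Da * mu.coeff j) := by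
      ring
    rw [e1, abs_mul (j.choose e : ℝ), abs_of_nonneg (a := (j.choose e : ℝ)) (Nat.cast_nonneg _)]
    exact le_mul_of_one_le_left (abs_nonneg _) h2
  have hhe : |Da * (hasseDeriv e mu).eval y - DD| ≤ L * (K₃ * E') := by
    have h1 := hS.ev (D := D) ((natDegree_sub_le _ _).trans (max_le
      ((natDegree_C_mul_le _ _).trans (deg_hd hmu e)) (by
        rw [natDegree_C]
        exact Nat.zero_le _))) hya
    rw [eval_sub, eval_mul, eval_C, eval_C, ← hL] at h1
    exact h1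
  have hhm : ∀ m, e < m → |Da * (hasseDeriv m mu).eval y| ≤ L * (P * (K₃ * E')) := by
    intro m hem
    have hdg : (C Da * mu).natDegree ≤ D := (natDegree_C_mul_le _ _).trans hmu
    have h1 := (Cb.hd (i := m) hdg (B := K₃ * E') fun j hj => hmj j (by omega)).ev
      (deg_hd hdg m) hya
    have h2 : hasseDeriv m (C Da * mu) = C Da * hasseDeriv m mu := by
      rw [← smul_eq_C_mul, ← smul_eq_C_mul, map_smul]
    rw [h2, eval_mul, eval_C, ← hL, ← hP] at h1
    exact h1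
  -- the main part
  obtain ⟨β, hβ⟩ : ∃ β : ℕ → ℝ, β = fun m => (if m = 0 then DD else 0) -
    Da * (hasseDeriv (e + m) mu).eval y := ⟨_, rfl⟩
  have hβb : ∀ m, |β m| ≤ L * (P * (K₃ * E')) := by
    intro m
    rw [hβ]
    simp only
    rcases Nat.eq_zero_or_pos m with rfl | hm0
    · rw [if_pos rfl, add_zero, ← abs_neg, neg_sub]
      refine hhe.trans ?_
      exact mul_le_mul_of_nonneg_left (le_mul_of_one_le_left h3E hP1) (by linarith)
    · rw [if_neg (by omega), zero_sub, abs_neg]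
      exact hhm _ (by omega)
  have hmain : Pool.EH25.nT i₀ e y Da DD mu - Mc * Pool.EH25.dT i₀ y Da =
      (X - C y) ^ i₀ * (C Da * (mu - Mc)) +
      (X - C y) ^ i₀ * ∑ m ∈ range k, C (β m) * ((X - C y) ^ (e + m) * 1) := by
    have h1 := tay hmu y
    rw [hk, Finset.sum_range_add] at h1
    have h2 : ∑ m ∈ range k, C (β m) * ((X - C y) ^ (e + m) * 1) = C DD * (X - C y) ^ e -
        C Da * ∑ m ∈ range k, C ((hasseDeriv (e + m) mu).eval y) * (X - C y) ^ (e + m) := by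
      have h3 : C DD * (X - C y) ^ e = ∑ m ∈ range k, C (if m = 0 then DD else 0) *
          (X - C y) ^ (e + m) := by
        rw [Finset.sum_eq_single 0]
        · rw [if_pos rfl, add_zero]
        · intro m _ hm0
          rw [if_neg hm0, C_0, zero_mul]
        · intro h4
          exact absurd (Finset.mem_range.2 hk1) h4
      rw [h3, Finset.mul_sum, ← Finset.sum_sub_distrib]
      refine Finset.sum_congr rfl fun m _ => ?_
      rw [hβ]
      simp only
      rw [C_sub, C_mul]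
      ring
    have h4 : ∑ m ∈ range e, C ((hasseDeriv m mu).eval y) * (X - C y) ^ (i₀ + m) =
        (X - C y) ^ i₀ * ∑ m ∈ range e, C ((hasseDeriv m mu).eval y) * (X - C y) ^ m := by
      rw [Finset.mul_sum]
      refine Finset.sum_congr rfl fun m _ => ?_
      rw [pow_add]
      ring
    have h5 : ∑ m ∈ range e, C ((hasseDeriv m mu).eval y) * (X - C y) ^ m = mu -
        ∑ m ∈ range k, C ((hasseDeriv (e + m) mu).eval y) * (X - C y) ^ (e + m) := by
      rw [eq_sub_iff_add_eq]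
      exact h1.symm
    unfold Pool.EH25.nT Pool.EH25.dT
    rw [h2, h4, h5, pow_add]
    ring
  have hmc : Cb (Pool.EH25.nT i₀ e y Da DD mu - Mc * Pool.EH25.dT i₀ y Da)
      ((P + P * (L * (L * P * K₃ * P))) * E') := by
    rw [hmain]
    have h1 : Cb (1 : Polynomial ℝ) 1 := by
      have := cb_C 1
      rw [C_1, abs_one] at this
      exact this
    have hPi : ∀ i ≤ D, (2 : ℝ) ^ i ≤ P := fun i hi => by
      rw [hP]
      exact pow_le_pow_right₀ (by norm_num) hi
    have h2 : Cb (C Da * (mu - Mc)) E' := fun j => by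
      rw [coeff_C_mul, abs_mul]
      exact hM j
    have h3' := Cb.sum (s := range k) (f := fun m => C (β m) * ((X - C y) ^ (e + m) * 1))
      (B := L * (P * (K₃ * E')) * P) fun m hm => by
        refine ((h1.linp' hya (e + m)).cmul (hβb m)).mono ?_
        rw [mul_one]
        have := Finset.mem_range.1 hm
        exact mul_le_mul_of_nonneg_left (hPi _ (by omega)) (by positivity)
    rw [card_range] at h3'
    have hkL : (k : ℝ) ≤ L := by
      rw [hL]
      exact_mod_cast (by omega : k ≤ D + 1)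
    have h4 := h3'.mono (mul_le_mul_of_nonneg_right hkL (by positivity))
    refine ((h2.linp' hya i₀).add (h4.linp' hya i₀)).mono ?_
    have h5 := hPi i₀ (by omega)
    have h6 : 2 ^ i₀ * E' ≤ P * E' := mul_le_mul_of_nonneg_right h5 hE'
    have h7 : 2 ^ i₀ * (L * (L * (P * (K₃ * E')) * P)) ≤ P * (L * (L * (P * (K₃ * E')) * P)) :=
      mul_le_mul_of_nonneg_right h5 (by positivity)
    have h8 : P * (L * (L * (P * (K₃ * E')) * P)) = P * (L * (L * P * K₃ * P)) * E' := by ring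
    rw [h8] at h7
    linarith
  -- the end
  have hdT := H.dT hi hd hE hy0 hy1
  have hnT := H.nT hi hd hn hmu hC hm hE hy0 hy1
  have e1 : ((D : ℝ) + 1) * (2 * ((D + 1) * 2 ^ D) * E * 2 ^ D) = Kd * E := by rw [hKd]; ring
  have e2 : ((D : ℝ) + 1) * ((D + 2) * (2 * ((D + 1) * 2 ^ D) ^ 2) * C₁ * E * 2 ^ D) =
      Kn * (C₁ * E) := by rw [hKn]; ring
  rw [e1] at hdT
  rw [e2] at hnT
  have hMd := Cb.mul hMc hMb hdT
  rw [← hL] at hMd
  have e3 : n - Mc * d = (n - Pool.EH25.nT i₀ e y Da DD mu) -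
      Mc * (d - Pool.EH25.dT i₀ y Da) + (Pool.EH25.nT i₀ e y Da DD mu -
        Mc * Pool.EH25.dT i₀ y Da) := by ring
  rw [e3]
  refine (((hnT.sub hMd).add hmc) j).trans ?_
  have hCE : C₁ * E ≤ C₁ * E' := mul_le_mul_of_nonneg_left hEE hC0
  have h1 : Kn * (C₁ * E) ≤ Kn * (C₁ * E') := mul_le_mul_of_nonneg_left hCE hn0
  have h2 : L * (C₁ * (Kd * E)) ≤ L * Kd * (C₁ * E') := by
    have h4 : L * (C₁ * (Kd * E)) = L * Kd * (C₁ * E) := by ring
    rw [h4]
    exact mul_le_mul_of_nonneg_left hCE (by positivity)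
  have h4 : (P + P * (L * (L * P * K₃ * P))) * E' ≤
      (P + P * (L * (L * P * K₃ * P))) * (C₁ * E') :=
    mul_le_mul_of_nonneg_left (le_mul_of_one_le_left hE' hC) (by positivity)
  have h5 : 0 ≤ C₁ * E' := mul_nonneg hC0 hE'
  have h6 : (Kn + L * Kd + (P + P * (L * (L * P * K₃ * P))) + 1) * C₁ * E' = Kn * (C₁ * E') +
      L * Kd * (C₁ * E') + (P + P * (L * (L * P * K₃ * P))) * (C₁ * E') + C₁ * E' := by ring
  rw [h6]
  linarith

end Pool.EH25
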