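import Pool.Agent.H25.EH.S

/-!
# The two displacement polynomials of a hop

`nh_fwd : NhFwd D`, `nh_back : NhBack D`.
-/

set_option autoImplicit false

namespace Pool.EH25

open Finset Polynomial

/-- Bounded coefficients. -/
def Cb (f : Polynomial ℝ) (B : ℝ) : Prop := ∀ j, |f.coeff j| ≤ B

theorem Cb.nonneg {f : Polynomial ℝ} {B : ℝ} (h : Cb f B) : 0 ≤ B := (abs_nonneg _).trans (h 0)

theorem Cb.mono {f : Polynomial ℝ} {B B' : ℝ} (h : Cb f B) (hB : B ≤ B') : Cb f B' :=
  fun j => (h j).trans hB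

theorem Cb.add {f g : Polynomial ℝ} {B B' : ℝ} (h : Cb f B) (h' : Cb g B') :
    Cb (f + g) (B + B') := fun j => by
  rw [coeff_add]
  exact (abs_add_le _ _).trans (add_le_add (h j) (h' j))

theorem Cb.sub {f g : Polynomial ℝ} {B B' : ℝ} (h : Cb f B) (h' : Cb g B') :
    Cb (f - g) (B + B') := fun j => by
  rw [coeff_sub]
  exact (abs_sub _ _).trans (add_le_add (h j) (h' j))

theorem Cb.neg {f : Polynomial ℝ} {B : ℝ} (h : Cb f B) : Cb (-f) B := fun j => by
  rw [coeff_neg, abs_neg]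
  exact h j

theorem Cb.cmul {f : Polynomial ℝ} {B a A : ℝ} (h : Cb f B) (ha : |a| ≤ A) :
    Cb (C a * f) (A * B) := fun j => by
  rw [coeff_C_mul, abs_mul]
  exact mul_le_mul ha (h j) (abs_nonneg _) ((abs_nonneg _).trans ha)

theorem Cb.sum {ι : Type} {s : Finset ι} {f : ι → Polynomial ℝ} {B : ℝ}
    (h : ∀ i ∈ s, Cb (f i) B) : Cb (∑ i ∈ s, f i) (s.card * B) := fun j => by
  rw [finsetSum_coeff]
  refine (Finset.abs_sum_le_sum_abs _ _).trans ?_
  refine (Finset.sum_le_card_nsmul _ _ _ fun i hi => h i hi j).trans ?_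
  rw [nsmul_eq_mul]

theorem Cb.xmul {f : Polynomial ℝ} {B : ℝ} (h : Cb f B) : Cb (X * f) B := fun j => by
  rcases j with _ | j
  · rw [coeff_X_mul_zero, abs_zero]
    exact h.nonneg
  · rw [coeff_X_mul]
    exact h j

theorem Cb.xpow {f : Polynomial ℝ} {B : ℝ} (h : Cb f B) : ∀ k : ℕ, Cb (X ^ k * f) B
  | 0 => by
    rw [pow_zero, one_mul]
    exact h
  | k + 1 => by
    rw [pow_succ', mul_assoc]
    exact (Cb.xpow h k).xmul

theorem Cb.mul {f g : Polynomial ℝ} {B B' : ℝ} {D : ℕ} (hD : f.natDegree ≤ D) (h : Cb f B)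
    (h' : Cb g B') : Cb (f * g) ((D + 1) * (B * B')) := by
  have e : f * g = ∑ i ∈ range (D + 1), C (f.coeff i) * (X ^ i * g) := by
    conv_lhs => rw [f.as_sum_range_C_mul_X_pow' (Nat.lt_succ_of_le hD)]
    rw [Finset.sum_mul]
    exact Finset.sum_congr rfl fun i _ => mul_assoc _ _ _
  rw [e]
  have := Cb.sum (s := range (D + 1)) (f := fun i => C (f.coeff i) * (X ^ i * g))
    (B := B * B') fun i _ => (h'.xpow i).cmul (h i)
  rw [card_range] at this
  push_cast at this
  exact this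

/-- The linear factor. -/
theorem Cb.lin {f : Polynomial ℝ} {B x : ℝ} (h : Cb f B) (hx : |x| ≤ 1) :
    Cb ((C x - X) * f) (2 * B) := by
  rw [sub_mul]
  have h1 := (h.cmul hx).sub h.xmul
  rw [one_mul, ← two_mul] at h1
  exact h1

theorem Cb.lin' {f : Polynomial ℝ} {B y : ℝ} (h : Cb f B) (hy : |y| ≤ 1) :
    Cb ((X - C y) * f) (2 * B) := by
  have : (X - C y) * f = -((C y - X) * f) := by ring
  rw [this]
  exact (h.lin hy).neg

theorem Cb.linp {f : Polynomial ℝ} {B x : ℝ} (h : Cb f B) (hx : |x| ≤ 1) :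
    ∀ k : ℕ, Cb ((C x - X) ^ k * f) (2 ^ k * B)
  | 0 => by
    rw [pow_zero, pow_zero, one_mul, one_mul]
    exact h
  | k + 1 => by
    rw [pow_succ', mul_assoc, pow_succ', mul_assoc]
    exact (Cb.linp h hx k).lin hx

theorem Cb.linp' {f : Polynomial ℝ} {B y : ℝ} (h : Cb f B) (hy : |y| ≤ 1) :
    ∀ k : ℕ, Cb ((X - C y) ^ k * f) (2 ^ k * B)
  | 0 => by
    rw [pow_zero, pow_zero, one_mul, one_mul]
    exact h
  | k + 1 => by
    rw [pow_succ', mul_assoc, pow_succ', mul_assoc]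
    exact (Cb.linp' h hy k).lin' hy

theorem cb_C (a : ℝ) : Cb (C a) |a| := fun j => by
  rw [coeff_C]
  split_ifs
  · exact le_rfl
  · rw [abs_zero]
    exact abs_nonneg a

theorem Cb.ev {f : Polynomial ℝ} {B x : ℝ} {D : ℕ} (hD : f.natDegree ≤ D) (h : Cb f B)
    (hx : |x| ≤ 1) : |f.eval x| ≤ (D + 1) * B := by
  rw [eval_eq_sum_range' (Nat.lt_succ_of_le hD)]
  refine (Finset.abs_sum_le_sum_abs _ _).trans ?_
  have h1 : ∀ i ∈ range (D + 1), |f.coeff i * x ^ i| ≤ B := fun i _ => by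
    rw [abs_mul, abs_pow]
    exact (mul_le_of_le_one_right (abs_nonneg _) (pow_le_one₀ (abs_nonneg _) hx)).trans (h i)
  refine (Finset.sum_le_card_nsmul _ _ _ h1).trans ?_
  rw [card_range, nsmul_eq_mul]
  push_cast
  exact le_rfl

/-- The derivatives. -/
theorem Cb.hd {f : Polynomial ℝ} {B : ℝ} {D i : ℕ} (hD : f.natDegree ≤ D)
    (h : ∀ j, i ≤ j → |f.coeff j| ≤ B) : Cb (hasseDeriv i f) (2 ^ D * B) := fun j => by
  have hB : 0 ≤ B := (abs_nonneg _).trans (h i le_rfl)
  rw [hasseDeriv_coeff, abs_mul]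
  rcases Nat.lt_or_ge D (j + i) with h1 | h1
  · rw [coeff_eq_zero_of_natDegree_lt (lt_of_le_of_lt hD h1), abs_zero, mul_zero]
    positivity
  · refine mul_le_mul ?_ (h _ (Nat.le_add_left _ _)) (abs_nonneg _) (by positivity)
    rw [abs_of_nonneg (Nat.cast_nonneg _)]
    have h2 : (j + i).choose i ≤ 2 ^ (j + i) := Nat.choose_le_two_pow _ _
    have h3 : 2 ^ (j + i) ≤ 2 ^ D := Nat.pow_le_pow_right (by norm_num) h1
    exact_mod_cast h2.trans h3

theorem deg_hd {f : Polynomial ℝ} {D : ℕ} (hD : f.natDegree ≤ D) (i : ℕ) :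
    (hasseDeriv i f).natDegree ≤ D :=
  (natDegree_hasseDeriv_le f i).trans ((Nat.sub_le _ _).trans hD)

/-- **Taylor's formula.** -/
theorem tay {f : Polynomial ℝ} {D : ℕ} (hD : f.natDegree ≤ D) (y : ℝ) :
    f = ∑ i ∈ range (D + 1), C ((hasseDeriv i f).eval y) * (X - C y) ^ i := by
  have h1 := sum_taylor_eq f y
  rw [Polynomial.sum_over_range' _ (fun n => by rw [C_0, zero_mul]) (D + 1) (by
    rw [natDegree_taylor]
    exact Nat.lt_succ_of_le hD)] at h1
  conv_lhs => rw [← h1]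
  exact Finset.sum_congr rfl fun i _ => by rw [taylor_coeff]

theorem tay_ev {f : Polynomial ℝ} {D : ℕ} (hD : f.natDegree ≤ D) (x y : ℝ) :
    f.eval x = ∑ i ∈ range (D + 1), (hasseDeriv i f).eval y * (x - y) ^ i := by
  conv_lhs => rw [tay hD y]
  rw [eval_finsetSum]
  refine Finset.sum_congr rfl fun i _ => ?_
  rw [eval_mul, eval_C, eval_pow, eval_sub, eval_X, eval_C]

/-- Taylor's formula in the other variable. -/
theorem tay_x {f : Polynomial ℝ} {D : ℕ} (hD : f.natDegree ≤ D) (x : ℝ) :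
    ∑ i ∈ range (D + 1), hasseDeriv i f * (C x - X) ^ i = C (f.eval x) := by
  refine Polynomial.funext fun y => ?_
  rw [eval_finsetSum, eval_C, tay_ev hD x y]
  refine Finset.sum_congr rfl fun i _ => ?_
  rw [eval_mul, eval_pow, eval_sub, eval_X, eval_C]

/-- The telescoping sum. -/
theorem tel (f : Polynomial ℝ) (x : ℝ) (e : ℕ) :
    derivative (∑ m ∈ range e, hasseDeriv m f * (C x - X) ^ m) =
      C (e : ℝ) * hasseDeriv e f * (C x - X) ^ (e - 1) := by
  have hG : derivative (C x - X : Polynomial ℝ) = -1 := by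
    rw [derivative_sub, derivative_C, derivative_X, zero_sub]
  have hh : ∀ m : ℕ, derivative (hasseDeriv m f) = C ((m : ℝ) + 1) * hasseDeriv (m + 1) f := by
    intro m
    have h1 := hasseDeriv_comp (R := ℝ) 1 m
    have h2 := congrArg (fun g => g f) h1
    simp only [LinearMap.comp_apply, LinearMap.smul_apply, hasseDeriv_one'] at h2
    rw [h2, Nat.choose_one_right, add_comm 1 m, nsmul_eq_mul]
    push_cast
    rw [C_add, C_1]
    norm_num
  induction e with
  | zero => simp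
  | succ e ih =>
    rw [Finset.sum_range_succ, derivative_add, ih, derivative_mul, hh, derivative_pow, hG,
      Nat.add_sub_cancel]
    rcases e with _ | e
    · simp
    · rw [Nat.add_sub_cancel]
      push_cast
      ring

/-- The displacements as polynomials in the other time, in the frame of `y`. -/
noncomputable def dT (i₀ : ℕ) (y Da : ℝ) : Polynomial ℝ := C Da * (X - C y) ^ i₀

noncomputable def nT (i₀ e : ℕ) (y Da DD : ℝ) (mu : Polynomial ℝ) : Polynomial ℝ :=
  C Da * ∑ m ∈ range e, C ((hasseDeriv m mu).eval y) * (X - C y) ^ (i₀ + m) +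
    C DD * (X - C y) ^ (i₀ + e)

theorem dT_ev (i₀ : ℕ) (x y Da : ℝ) : (dT i₀ y Da).eval x = (Qv i₀ x Da).eval y := by
  unfold dT Qv
  simp only [eval_mul, eval_C, eval_pow, eval_sub, eval_X]

theorem nT_ev (i₀ e : ℕ) (x y Da DD : ℝ) (mu : Polynomial ℝ) :
    (nT i₀ e y Da DD mu).eval x = (QN i₀ e x Da DD mu).eval y := by
  unfold nT QN
  simp only [eval_add, eval_mul, eval_C, eval_pow, eval_sub, eval_X, eval_finsetSum]

/-- The top coefficient. -/
theorem hd_top {D i : ℕ} {y E a : ℝ} {f : Polynomial ℝ} (hf : f.natDegree ≤ D) (hE : 0 ≤ E)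
    (hy0 : 0 ≤ y) (hy1 : y ≤ 1) (h1 : |a - f.coeff i| ≤ E) (h2 : ∀ j, i < j → |f.coeff j| ≤ E) :
    |(hasseDeriv i f).eval y - a| ≤ 2 * ((D + 1) * 2 ^ D) * E := by
  have hD0 : (0 : ℝ) ≤ D := Nat.cast_nonneg D
  have hK : (1 : ℝ) ≤ (D + 1) * 2 ^ D :=
    one_le_mul_of_one_le_of_one_le (by linarith) (one_le_pow₀ (by norm_num))
  have hKE : E ≤ (D + 1) * 2 ^ D * E := le_mul_of_one_le_left hE hK
  have hya : |y| ≤ 1 := by
    rw [abs_of_nonneg hy0]
    exact hy1
  have h3 : |(hasseDeriv i (f - C (f.coeff i) * X ^ i)).eval y| ≤ (D + 1) * (2 ^ D * E) := by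
    have hdeg : (f - C (f.coeff i) * X ^ i).natDegree ≤ D := by
      rcases Nat.lt_or_ge D i with h2 | h2
      · rw [coeff_eq_zero_of_natDegree_lt (lt_of_le_of_lt hf h2), C_0, zero_mul, sub_zero]
        exact hf
      · refine (natDegree_sub_le _ _).trans (max_le hf ?_)
        exact (natDegree_C_mul_X_pow_le _ _).trans h2
    refine (Cb.hd hdeg (B := E) fun j hj => ?_).ev (deg_hd hdeg i) hya
    rw [coeff_sub, coeff_C_mul_X_pow]
    rcases Nat.lt_or_ge i j with h4 | h4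
    · rw [if_neg (by omega), sub_zero]
      exact h2 j h4
    · have : j = i := by omega
      rw [if_pos this, this, sub_self, abs_zero]
      exact hE
  have h4 : (hasseDeriv i (f - C (f.coeff i) * X ^ i)).eval y =
      (hasseDeriv i f).eval y - f.coeff i := by
    rw [map_sub, eval_sub]
    congr 1
    have h3 : hasseDeriv i (C (f.coeff i) * X ^ i : Polynomial ℝ) = C (f.coeff i) := by
      rw [C_mul_X_pow_eq_monomial, hasseDeriv_monomial, Nat.choose_self, Nat.sub_self,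
        Nat.cast_one, one_mul, monomial_zero_left]
    rw [h3, eval_C]
  rw [h4] at h3
  have e1 : (hasseDeriv i f).eval y - a = ((hasseDeriv i f).eval y - f.coeff i) -
      (a - f.coeff i) := by ring
  rw [e1]
  refine (abs_sub _ _).trans ?_
  linarith

/-- The derivatives of `d` at `y`. -/
theorem Rl2.hd {D i₀ e : ℕ} {y E : ℝ} {d n mu : Polynomial ℝ} {Da DD : ℝ}
    (H : Rl2 i₀ e y E d n mu Da DD) (hd : d.natDegree ≤ D) (hE : 0 ≤ E) (hy0 : 0 ≤ y)
    (hy1 : y ≤ 1) (i : ℕ) :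
    |(hasseDeriv i d).eval y - (if i = i₀ then Da else 0)| ≤ 2 * ((D + 1) * 2 ^ D) * E := by
  have hD0 : (0 : ℝ) ≤ D := Nat.cast_nonneg D
  have hK : (1 : ℝ) ≤ (D + 1) * 2 ^ D :=
    one_le_mul_of_one_le_of_one_le (by linarith) (one_le_pow₀ (by norm_num))
  have hKE : E ≤ (D + 1) * 2 ^ D * E := le_mul_of_one_le_left hE hK
  have hya : |y| ≤ 1 := by
    rw [abs_of_nonneg hy0]
    exact hy1
  rcases lt_trichotomy i i₀ with h | rfl | h
  · rw [if_neg (by omega), sub_zero]
    have := H.dlo i h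
    linarith
  · rw [if_pos rfl]
    exact hd_top hd hE hy0 hy1 H.dtop H.dhi
  · rw [if_neg (by omega), sub_zero]
    have h1 : |(hasseDeriv i d).eval y| ≤ (D + 1) * (2 ^ D * E) :=
      (Cb.hd hd (B := E) fun j hj => H.dhi j (by omega)).ev (deg_hd hd i) hya
    linarith

/-- The path of `v`. -/
theorem Rl2.dT {D i₀ e : ℕ} {y E : ℝ} {d n mu : Polynomial ℝ} {Da DD : ℝ}
    (H : Rl2 i₀ e y E d n mu Da DD) (hi : i₀ + e ≤ D) (hd : d.natDegree ≤ D) (hE : 0 ≤ E)
    (hy0 : 0 ≤ y) (hy1 : y ≤ 1) :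
    Cb (d - dT i₀ y Da) (((D : ℝ) + 1) * (2 * ((D + 1) * 2 ^ D) * E * 2 ^ D)) := by
  have hya : |y| ≤ 1 := by
    rw [abs_of_nonneg hy0]
    exact hy1
  have e1 : d - Pool.EH25.dT i₀ y Da = ∑ i ∈ range (D + 1),
      C ((hasseDeriv i d).eval y - (if i = i₀ then Da else 0)) * ((X - C y) ^ i * 1) := by
    conv_lhs => rw [tay hd y]
    unfold Pool.EH25.dT
    have e2 : C Da * (X - C y) ^ i₀ = ∑ i ∈ range (D + 1),
        C (if i = i₀ then Da else 0) * (X - C y) ^ i := by
      rw [Finset.sum_eq_single i₀]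
      · rw [if_pos rfl]
      · intro i _ h
        rw [if_neg h, C_0, zero_mul]
      · intro h
        exact absurd (Finset.mem_range.2 (by omega)) h
    rw [e2, ← Finset.sum_sub_distrib]
    refine Finset.sum_congr rfl fun i _ => ?_
    rw [C_sub]
    ring
  rw [e1]
  have h := Cb.sum (s := range (D + 1)) (f := fun i =>
    C ((hasseDeriv i d).eval y - (if i = i₀ then Da else 0)) * ((X - C y) ^ i * 1))
    (B := 2 * ((D + 1) * 2 ^ D) * E * 2 ^ D) fun i hi => by
      have h1 : Cb (1 : Polynomial ℝ) 1 := by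
        have := cb_C 1
        rw [C_1, abs_one] at this
        exact this
      refine ((h1.linp' hya i).cmul (H.hd hd hE hy0 hy1 i)).mono ?_
      rw [mul_one]
      refine mul_le_mul_of_nonneg_left ?_ (by positivity)
      exact pow_le_pow_right₀ (by norm_num) (by
        have := Finset.mem_range.1 hi
        omega)
  rw [card_range] at h
  push_cast at h
  exact h

/-- The derivatives of `n` at `y`. -/
theorem Rl2.hn {D i₀ e : ℕ} {y E C₁ : ℝ} {d n mu : Polynomial ℝ} {Da DD : ℝ}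
    (H : Rl2 i₀ e y E d n mu Da DD) (hd : d.natDegree ≤ D) (hn : n.natDegree ≤ D)
    (hmu : mu.natDegree ≤ D) (hC : 1 ≤ C₁) (hm : Cb mu C₁) (hE : 0 ≤ E) (hy0 : 0 ≤ y)
    (hy1 : y ≤ 1) (i : ℕ) (hiD : i ≤ D) :
    |(hasseDeriv i n).eval y - (if i < i₀ + e then (if i₀ ≤ i then
      Da * (hasseDeriv (i - i₀) mu).eval y else 0) else if i = i₀ + e then DD else 0)| ≤
      ((D + 2) * (2 * ((D + 1) * 2 ^ D) ^ 2)) * C₁ * E := by
  have hD0 : (0 : ℝ) ≤ D := Nat.cast_nonneg D
  obtain ⟨L, hL⟩ : ∃ L : ℝ, L = (D + 1) * 2 ^ D := ⟨_, rfl⟩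
  have hL1 : 1 ≤ L := by
    rw [hL]
    exact one_le_mul_of_one_le_of_one_le (by linarith) (one_le_pow₀ (by norm_num))
  have hya : |y| ≤ 1 := by
    rw [abs_of_nonneg hy0]
    exact hy1
  rw [← hL]
  have hLL : L ≤ L ^ 2 := by nlinarith
  have hCE : E ≤ C₁ * E := le_mul_of_one_le_left hE hC
  have hCE0 : 0 ≤ C₁ * E := mul_nonneg (by linarith) hE
  -- the big constant
  have hbig : ∀ a : ℝ, a ≤ 2 * L * (C₁ * E) + (D + 1) * (L * C₁ * (2 * L * E)) →
      a ≤ ((D + 2) * (2 * L ^ 2)) * C₁ * E := by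
    intro a ha
    refine ha.trans ?_
    have h1 : 2 * L * (C₁ * E) ≤ 2 * L ^ 2 * (C₁ * E) := by nlinarith
    have h2 : (D + 1) * (L * C₁ * (2 * L * E)) = (D + 1) * (2 * L ^ 2) * (C₁ * E) := by ring
    rw [h2]
    have h3 : ((D + 2) * (2 * L ^ 2)) * C₁ * E = 2 * L ^ 2 * (C₁ * E) +
        (D + 1) * (2 * L ^ 2) * (C₁ * E) := by ring
    linarith
  have hLC : 0 ≤ (D + 1) * (L * C₁ * (2 * L * E)) := by positivity
  rcases lt_trichotomy i (i₀ + e) with h | h | h
  · rw [if_pos h]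
    have e1 : n = (n - mu * d) + mu * d := by ring
    have e2 : (hasseDeriv i n).eval y = (hasseDeriv i (n - mu * d)).eval y +
        ∑ ij ∈ antidiagonal i, (hasseDeriv ij.1 mu).eval y * (hasseDeriv ij.2 d).eval y := by
      conv_lhs => rw [e1]
      rw [map_add, hasseDeriv_mul, eval_add, eval_finsetSum]
      simp only [eval_mul]
    have e3 : (if i₀ ≤ i then Da * (hasseDeriv (i - i₀) mu).eval y else 0) =
        ∑ ij ∈ antidiagonal i, (hasseDeriv ij.1 mu).eval y * (if ij.2 = i₀ then Da else 0) := by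
      by_cases h1 : i₀ ≤ i
      · rw [if_pos h1, Finset.sum_eq_single (i - i₀, i₀)]
        · rw [if_pos rfl, mul_comm]
        · rintro ⟨a, b⟩ hab hne
          rw [Finset.HasAntidiagonal.mem_antidiagonal] at hab
          have : b ≠ i₀ := by
            rintro rfl
            apply hne
            simp only [Prod.mk.injEq, and_true]
            simp only at hab
            omega
          rw [if_neg this, mul_zero]
        · intro h2
          exact absurd (Finset.HasAntidiagonal.mem_antidiagonal.2 (show i - i₀ + i₀ = i by omega)) h2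
      · rw [if_neg h1, Finset.sum_eq_zero]
        rintro ⟨a, b⟩ hab
        rw [Finset.HasAntidiagonal.mem_antidiagonal] at hab
        simp only at hab ⊢
        rw [if_neg (by omega), mul_zero]
    rw [e2, e3, add_sub_assoc, ← Finset.sum_sub_distrib]
    refine hbig _ ((abs_add_le _ _).trans (add_le_add ?_ ?_))
    · refine (H.nlo i h).trans (hCE.trans ?_)
      nlinarith
    · refine (Finset.abs_sum_le_sum_abs _ _).trans ?_
      have hb : ∀ ij ∈ antidiagonal i, |(hasseDeriv ij.1 mu).eval y * (hasseDeriv ij.2 d).eval y -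
          (hasseDeriv ij.1 mu).eval y * (if ij.2 = i₀ then Da else 0)| ≤
          L * C₁ * (2 * L * E) := by
        intro ij _
        rw [← mul_sub, abs_mul]
        refine mul_le_mul ?_ ?_ (abs_nonneg _) (by positivity)
        · have := (Cb.hd (i := ij.1) hmu (B := C₁) fun j _ => hm j).ev (deg_hd hmu ij.1) hya
          rw [hL]
          linarith
        · have := H.hd hd hE hy0 hy1 ij.2
          rw [← hL] at this
          exact this
      refine (Finset.sum_le_card_nsmul _ _ _ hb).trans ?_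
      rw [Finset.Nat.card_antidiagonal, nsmul_eq_mul]
      refine mul_le_mul_of_nonneg_right ?_ (by positivity)
      push_cast
      have : (i : ℝ) ≤ D := by exact_mod_cast hiD
      linarith
  · rw [if_neg (by omega), if_pos h]
    rw [h]
    refine hbig _ ?_
    have h1 := hd_top hn hE hy0 hy1 H.ntop H.nhi
    rw [← hL] at h1
    have h2 : 2 * L * E ≤ 2 * L * (C₁ * E) := mul_le_mul_of_nonneg_left hCE (by linarith)
    linarith
  · rw [if_neg (by omega), if_neg (by omega), sub_zero]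
    have h1 : |(hasseDeriv i n).eval y| ≤ (D + 1) * (2 ^ D * E) :=
      (Cb.hd hn (B := E) fun j hj => H.nhi j (by omega)).ev (deg_hd hn i) hya
    refine hbig _ ?_
    have h2 : (D + 1) * (2 ^ D * E) = L * E := by rw [hL]; ring
    rw [h2] at h1
    have h3 : L * E ≤ L * (C₁ * E) := mul_le_mul_of_nonneg_left hCE (by linarith)
    have h4 : 0 ≤ L * (C₁ * E) := by positivity
    linarith

/-- The path of `N`. -/
theorem Rl2.nT {D i₀ e : ℕ} {y E C₁ : ℝ} {d n mu : Polynomial ℝ} {Da DD : ℝ}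
    (H : Rl2 i₀ e y E d n mu Da DD) (hi : i₀ + e ≤ D) (hd : d.natDegree ≤ D)
    (hn : n.natDegree ≤ D) (hmu : mu.natDegree ≤ D) (hC : 1 ≤ C₁) (hm : Cb mu C₁) (hE : 0 ≤ E)
    (hy0 : 0 ≤ y) (hy1 : y ≤ 1) :
    Cb (n - nT i₀ e y Da DD mu)
      (((D : ℝ) + 1) * (((D + 2) * (2 * ((D + 1) * 2 ^ D) ^ 2)) * C₁ * E * 2 ^ D)) := by
  have hya : |y| ≤ 1 := by
    rw [abs_of_nonneg hy0]
    exact hy1
  obtain ⟨τ, hτ⟩ : ∃ τ : ℕ → ℝ, τ = fun i => if i < i₀ + e then (if i₀ ≤ i then
    Da * (hasseDeriv (i - i₀) mu).eval y else 0) else if i = i₀ + e then DD else 0 := ⟨_, rfl⟩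
  have e1 : n - Pool.EH25.nT i₀ e y Da DD mu = ∑ i ∈ range (D + 1),
      C ((hasseDeriv i n).eval y - τ i) * ((X - C y) ^ i * 1) := by
    conv_lhs => rw [tay hn y]
    have e2 : Pool.EH25.nT i₀ e y Da DD mu = ∑ i ∈ range (D + 1), C (τ i) * (X - C y) ^ i := by
      unfold Pool.EH25.nT
      obtain ⟨k, hk⟩ : ∃ k, D + 1 = i₀ + e + 1 + k := ⟨D - (i₀ + e), by omega⟩
      rw [hk, Finset.sum_range_add, Finset.sum_range_succ, Finset.sum_range_add]
      have a1 : ∑ x ∈ range i₀, C (τ x) * (X - C y) ^ x = 0 := by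
        refine Finset.sum_eq_zero fun i hi => ?_
        have := Finset.mem_range.1 hi
        rw [hτ]
        simp only
        rw [if_pos (by omega), if_neg (by omega), C_0, zero_mul]
      have a2 : ∑ x ∈ range e, C (τ (i₀ + x)) * (X - C y) ^ (i₀ + x) =
          C Da * ∑ m ∈ range e, C ((hasseDeriv m mu).eval y) * (X - C y) ^ (i₀ + m) := by
        rw [Finset.mul_sum]
        refine Finset.sum_congr rfl fun i hi => ?_
        have := Finset.mem_range.1 hi
        rw [hτ]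
        simp only
        rw [if_pos (by omega), if_pos (by omega), Nat.add_sub_cancel_left, C_mul, mul_assoc]
      have a3 : τ (i₀ + e) = DD := by
        rw [hτ]
        simp only
        rw [if_neg (by omega)]
        simp
      have a4 : ∑ x ∈ range k, C (τ (i₀ + e + 1 + x)) * (X - C y) ^ (i₀ + e + 1 + x) = 0 := by
        refine Finset.sum_eq_zero fun i _ => ?_
        rw [hτ]
        simp only
        rw [if_neg (by omega), if_neg (by omega), C_0, zero_mul]
      rw [a1, a2, a3, a4, zero_add, add_zero]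
    rw [e2, ← Finset.sum_sub_distrib]
    refine Finset.sum_congr rfl fun i _ => ?_
    rw [C_sub]
    ring
  rw [e1]
  have h := Cb.sum (s := range (D + 1)) (f := fun i =>
    C ((hasseDeriv i n).eval y - τ i) * ((X - C y) ^ i * 1))
    (B := ((D + 2) * (2 * ((D + 1) * 2 ^ D) ^ 2)) * C₁ * E * 2 ^ D) fun i hi => by
      have h1 : Cb (1 : Polynomial ℝ) 1 := by
        have := cb_C 1
        rw [C_1, abs_one] at this
        exact this
      have hi' := Finset.mem_range.1 hi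
      have h2 := H.hn hd hn hmu hC hm hE hy0 hy1 i (by omega)
      have h3 : τ i = (if i < i₀ + e then (if i₀ ≤ i then
          Da * (hasseDeriv (i - i₀) mu).eval y else 0) else if i = i₀ + e then DD else 0) := by
        rw [hτ]
      rw [← h3] at h2
      refine ((h1.linp' hya i).cmul h2).mono ?_
      rw [mul_one]
      refine mul_le_mul_of_nonneg_left ?_ (by positivity)
      exact pow_le_pow_right₀ (by norm_num) (by omega)
  rw [card_range] at h
  push_cast at h
  exact h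

theorem deg_lin (y : ℝ) (k : ℕ) : ((X - C y) ^ k : Polynomial ℝ).natDegree ≤ k := by
  refine natDegree_pow_le.trans ?_
  rw [natDegree_X_sub_C, mul_one]

theorem deg_dT {D i₀ : ℕ} (h : i₀ ≤ D) (y Da : ℝ) : (dT i₀ y Da).natDegree ≤ D :=
  (natDegree_C_mul_le _ _).trans ((deg_lin y i₀).trans h)

theorem deg_nT {D i₀ e : ℕ} (h : i₀ + e ≤ D) (y Da DD : ℝ) (mu : Polynomial ℝ) :
    (nT i₀ e y Da DD mu).natDegree ≤ D := by
  unfold nT
  refine (natDegree_add_le _ _).trans (max_le ((natDegree_C_mul_le _ _).trans ?_)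
    ((natDegree_C_mul_le _ _).trans ((deg_lin y _).trans h)))
  refine natDegree_sum_le_of_forall_le _ _ fun i hi => ?_
  have := Finset.mem_range.1 hi
  exact (natDegree_C_mul_le _ _).trans ((deg_lin y _).trans (by omega))

/-- **Forward.** -/
theorem nh_fwd (D : ℕ) : NhFwd D := by
  obtain ⟨K₁, hK₁⟩ : ∃ K₁ : ℝ, K₁ = ((D : ℝ) + 1) * (2 * ((D + 1) * 2 ^ D) * 2 ^ D) := ⟨_, rfl⟩
  obtain ⟨K₂, hK₂⟩ : ∃ K₂ : ℝ, K₂ = ((D : ℝ) + 1) *
    (((D + 2) * (2 * ((D + 1) * 2 ^ D) ^ 2)) * 2 ^ D) := ⟨_, rfl⟩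
  have hD0 : (0 : ℝ) ≤ D := Nat.cast_nonneg D
  have h1 : 0 ≤ K₁ := by rw [hK₁]; positivity
  have h2 : 0 ≤ K₂ := by rw [hK₂]; positivity
  refine ⟨((D : ℝ) + 1) * K₁ + (D + 1) * K₂ + 1, by
    have : 0 ≤ ((D : ℝ) + 1) * K₁ + (D + 1) * K₂ := by positivity
    linarith, ?_⟩
  intro i₀ e x y E C₁ d n mu Da DD hi hd hn hmu hC hm hE hx0 hx1 hy0 hy1 H
  have hxa : |x| ≤ 1 := by
    rw [abs_of_nonneg hx0]
    exact hx1
  have hCE : E ≤ C₁ * E := le_mul_of_one_le_left hE hC
  have hCE0 : 0 ≤ C₁ * E := mul_nonneg (by linarith) hE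
  constructor
  · rw [← dT_ev, ← eval_sub]
    refine ((H.dT hi hd hE hy0 hy1).ev ((natDegree_sub_le _ _).trans
      (max_le hd (deg_dT (by omega) y Da))) hxa).trans ?_
    have e1 : ((D : ℝ) + 1) * ((D + 1) * (2 * ((D + 1) * 2 ^ D) * E * 2 ^ D)) =
        ((D : ℝ) + 1) * K₁ * E := by rw [hK₁]; ring
    rw [e1]
    refine mul_le_mul_of_nonneg_right ?_ hE
    have : 0 ≤ ((D : ℝ) + 1) * K₂ := by positivity
    linarith
  · rw [← nT_ev, ← eval_sub]
    refine ((H.nT hi hd hn hmu hC hm hE hy0 hy1).ev ((natDegree_sub_le _ _).trans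
      (max_le hn (deg_nT hi y Da DD mu))) hxa).trans ?_
    have e1 : ((D : ℝ) + 1) * ((D + 1) * ((D + 2) * (2 * ((D + 1) * 2 ^ D) ^ 2) * C₁ * E * 2 ^ D)) =
        ((D : ℝ) + 1) * K₂ * (C₁ * E) := by rw [hK₂]; ring
    rw [e1, mul_assoc (((D : ℝ) + 1) * K₁ + (D + 1) * K₂ + 1)]
    refine mul_le_mul_of_nonneg_right ?_ hCE0
    have : 0 ≤ ((D : ℝ) + 1) * K₁ := by positivity
    linarith

end Pool.EH25
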