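import Mathlib

/-!
# The two displacement polynomials of a hop: statements

Two lines through one ball at the time `y`; `d`, `n`: the differences of the paths of the places `v`,
`N`; `mu`: the slope path. `Qv`, `QN`, `QP`: the displacements at the time `x` as polynomials in `y`,
their coefficients are functions of `x`, `Da`, `DD`, `mu`, `Mc`. `NhFwd`: the displacements.
`NhBack`: if the coefficients of `QP` of order at least one are small, all coefficients of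
`n - Mc d` are small.
-/

set_option autoImplicit false

namespace Pool.EH25

open Finset Polynomial

/-- The displacement of `v`. -/
noncomputable def Qv (i₀ : ℕ) (x Da : ℝ) : Polynomial ℝ := C Da * (C x - X) ^ i₀

/-- The displacement of `N`. -/
noncomputable def QN (i₀ e : ℕ) (x Da DD : ℝ) (mu : Polynomial ℝ) : Polynomial ℝ :=
  C Da * ∑ m ∈ range e, hasseDeriv m mu * (C x - X) ^ (i₀ + m) + C DD * (C x - X) ^ (i₀ + e)

/-- The displacement of `N - Mc v`. -/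
noncomputable def QP (i₀ e : ℕ) (x Da DD : ℝ) (mu Mc : Polynomial ℝ) : Polynomial ℝ :=
  QN i₀ e x Da DD mu - C (Mc.eval x) * Qv i₀ x Da

/-- The relations of the two lines at the time `y`. -/
structure Rl2 (i₀ e : ℕ) (y E : ℝ) (d n mu : Polynomial ℝ) (Da DD : ℝ) : Prop where
  dlo : ∀ i < i₀, |(hasseDeriv i d).eval y| ≤ E
  dtop : |Da - d.coeff i₀| ≤ E
  dhi : ∀ i, i₀ < i → |d.coeff i| ≤ E
  nlo : ∀ i < i₀ + e, |(hasseDeriv i (n - mu * d)).eval y| ≤ E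
  ntop : |DD - n.coeff (i₀ + e)| ≤ E
  nhi : ∀ i, i₀ + e < i → |n.coeff i| ≤ E

/-- **Forward.** -/
def NhFwd (D : ℕ) : Prop := ∃ K : ℝ, 1 ≤ K ∧ ∀ {i₀ e : ℕ} {x y E C₁ : ℝ} {d n mu : Polynomial ℝ}
  {Da DD : ℝ}, i₀ + e ≤ D → d.natDegree ≤ D → n.natDegree ≤ D → mu.natDegree ≤ D → 1 ≤ C₁ →
  (∀ j, |mu.coeff j| ≤ C₁) → 0 ≤ E → 0 ≤ x → x ≤ 1 → 0 ≤ y → y ≤ 1 →
  Rl2 i₀ e y E d n mu Da DD →
  |d.eval x - (Qv i₀ x Da).eval y| ≤ K * E ∧
  |n.eval x - (QN i₀ e x Da DD mu).eval y| ≤ K * C₁ * E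

/-- **Back.** -/
def NhBack (D : ℕ) : Prop := ∃ K : ℝ, 1 ≤ K ∧ ∀ {i₀ e : ℕ} {x y E E' C₁ : ℝ}
  {d n mu Mc : Polynomial ℝ} {Da DD : ℝ}, i₀ + e ≤ D → 1 ≤ e → d.natDegree ≤ D →
  n.natDegree ≤ D → mu.natDegree ≤ D → Mc.natDegree ≤ D → 1 ≤ C₁ →
  (∀ j, |mu.coeff j| ≤ C₁) → (∀ j, |Mc.coeff j| ≤ C₁) → 0 ≤ E → E ≤ E' → 0 ≤ x → x ≤ 1 →
  0 ≤ y → y ≤ 1 → Rl2 i₀ e y E d n mu Da DD →
  (∀ j, 1 ≤ j → |(QP i₀ e x Da DD mu Mc).coeff j| ≤ E') →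
  (∀ j, |Da| * |(mu - Mc).coeff j| ≤ E') →
  ∀ j, |(n - Mc * d).coeff j| ≤ K * C₁ * E'

end Pool.EH25
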